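import Pool.Agent.Work.MP_462f25_al.Defs

open Filter Topology

namespace Pool.Agent.Work.MP_462f25_al

universe u v

variable {Γ : Type u} [Group Γ] (S : FinGenSet Γ)

theorem gromovProd_comm (x y : Γ) : gromovProd S x y = gromovProd S y x := by
  have h : wordLength S (x⁻¹ * y) = wordLength S (y⁻¹ * x) := by
    rw [← wordLength_inv S (x⁻¹ * y)]
    congr 1
    group
  unfold gromovProd
  rw [h]
  ring

theorem gromovProd_nonneg (x y : Γ) : 0 ≤ gromovProd S x y := by
  have h : (wordLength S (x⁻¹ * y) : ℝ) ≤ wordLength S x + wordLength S y := by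
    have := wordLength_mul_le S x⁻¹ y
    rw [wordLength_inv] at this
    exact_mod_cast this
  unfold gromovProd
  linarith

theorem gromovProd_le_left (x y : Γ) : gromovProd S x y ≤ wordLength S x := by
  have h : (wordLength S y : ℝ) ≤ wordLength S x + wordLength S (x⁻¹ * y) := by
    have := wordLength_mul_le S x (x⁻¹ * y)
    rw [mul_inv_cancel_left] at this
    exact_mod_cast this
  unfold gromovProd
  linarith

theorem gromovProd_le_right (x y : Γ) : gromovProd S x y ≤ wordLength S y := by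
  rw [gromovProd_comm]
  exact gromovProd_le_left S y x

/-- change of base point -/
theorem gromovProd_translate (h x z : Γ) :
    gromovProd S x z = gromovProd S (h⁻¹ * x) (h⁻¹ * z) - wordLength S h
      + gromovProd S h x + gromovProd S h z := by
  have e : (h⁻¹ * x)⁻¹ * (h⁻¹ * z) = x⁻¹ * z := by group
  unfold gromovProd
  rw [e]
  ring

theorem wordLength_inv_mul (h x : Γ) :
    (wordLength S (h⁻¹ * x) : ℝ) = wordLength S h + wordLength S x - 2 * gromovProd S h x := by
  unfold gromovProd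
  ring

/-- hyperbolic inequality with a nonnegative constant `δ` -/
def HypIneq (δ : ℝ) : Prop :=
  0 ≤ δ ∧ ∀ x y z : Γ, min (gromovProd S x y) (gromovProd S y z) - δ ≤ gromovProd S x z

theorem IsHyperbolic.exists_hypIneq (hS : IsHyperbolic S) : ∃ δ : ℝ, HypIneq S δ := by
  obtain ⟨δ, hδ⟩ := hS
  refine ⟨max δ 0, le_max_right _ _, fun x y z => ?_⟩
  have := hδ x y z
  have := le_max_left δ 0
  linarith

variable {S}

theorem HypIneq.le {δ : ℝ} (H : HypIneq S δ) {x y z : Γ} {r s t : ℝ} (h1 : r ≤ gromovProd S x y)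
    (h2 : s ≤ gromovProd S y z) (hr : t + δ ≤ r) (hs : t + δ ≤ s) : t ≤ gromovProd S x z := by
  have h := H.2 x y z
  have : t + δ ≤ min (gromovProd S x y) (gromovProd S y z) :=
    le_min (hr.trans h1) (hs.trans h2)
  linarith

/-- point of the boundary given by a sequence -/
def mk (x : GromovSeq S) : Boundary S := Quot.mk _ x

theorem exists_rep (ξ : Boundary S) : ∃ x : GromovSeq S, mk x = ξ := Quot.exists_rep ξ

theorem rel_equivalence {δ : ℝ} (H : HypIneq S δ) : Equivalence (GromovSeq.Rel S) where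
  refl x := x.2
  symm := by
    intro x y h r
    obtain ⟨N, hN⟩ := h r
    exact ⟨N, fun i hi j hj => by rw [gromovProd_comm]; exact hN j hj i hi⟩
  trans := by
    intro x y z h1 h2 r
    obtain ⟨N, hN⟩ := h1 (r + δ)
    obtain ⟨M, hM⟩ := h2 (r + δ)
    refine ⟨max N M, fun i hi j hj => ?_⟩
    exact H.le (hN i (le_of_max_le_left hi) (max N M) (le_max_left _ _))
      (hM (max N M) (le_max_right _ _) j (le_of_max_le_right hj)) le_rfl le_rfl

theorem mk_eq_iff {δ : ℝ} (H : HypIneq S δ) {x y : GromovSeq S} :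
    mk x = mk y ↔ GromovSeq.Rel S x y := by
  constructor
  · intro h
    exact (rel_equivalence H).eqvGen_iff.1 (Quot.eqvGen_exact h)
  · exact Quot.sound

theorem smul_mk (g : Γ) (x : GromovSeq S) : g • mk x = mk (GromovSeq.smul S g x) := rfl

theorem near_rep {δ : ℝ} (H : HypIneq S δ) {r : ℝ} {ξ η : Boundary S} (h : Near S r ξ η)
    {x y : GromovSeq S} (hx : mk x = ξ) (hy : mk y = η) :
    ∃ N : ℕ, ∀ i ≥ N, ∀ j ≥ N, r - 2 * δ ≤ gromovProd S (x.1 i) (y.1 j) := by
  obtain ⟨x', y', hx', hy', N, hN⟩ := h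
  obtain ⟨N1, hN1⟩ := (mk_eq_iff H).1 (hx.trans hx'.symm) r
  obtain ⟨N2, hN2⟩ := (mk_eq_iff H).1 (Eq.trans (show mk y' = η from hy') hy.symm) r
  refine ⟨max N (max N1 N2), fun i hi j hj => ?_⟩
  set M := max N (max N1 N2) with hM
  have hM0 : N ≤ M := le_max_left _ _
  have hM1 : N1 ≤ M := (le_max_left _ _).trans (le_max_right _ _)
  have hM2 : N2 ≤ M := (le_max_right _ _).trans (le_max_right _ _)
  have a1 := hN1 i (hM1.trans hi) M hM1
  have a2 := hN M hM0 M hM0
  have a3 := hN2 M hM2 j (hM2.trans hj)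
  have b1 : r - δ ≤ gromovProd S (x.1 i) (y'.1 M) := H.le a1 a2 (by linarith) (by linarith)
  exact H.le b1 a3 (by linarith) (by linarith [H.1])

theorem near_of_rep {r : ℝ} {ξ η : Boundary S} {x y : GromovSeq S} (hx : mk x = ξ) (hy : mk y = η)
    (h : ∃ N : ℕ, ∀ i ≥ N, ∀ j ≥ N, r ≤ gromovProd S (x.1 i) (y.1 j)) : Near S r ξ η :=
  ⟨x, y, hx, hy, h⟩

theorem near_mono {r s : ℝ} (hrs : r ≤ s) {ξ η : Boundary S} (h : Near S s ξ η) :
    Near S r ξ η := by
  obtain ⟨x, y, hx, hy, N, hN⟩ := h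
  exact ⟨x, y, hx, hy, N, fun i hi j hj => hrs.trans (hN i hi j hj)⟩

theorem near_symm {r : ℝ} {ξ η : Boundary S} (h : Near S r ξ η) : Near S r η ξ := by
  obtain ⟨x, y, hx, hy, N, hN⟩ := h
  exact ⟨y, x, hy, hx, N, fun i hi j hj => by rw [gromovProd_comm]; exact hN j hj i hi⟩

theorem near_self (r : ℝ) (ξ : Boundary S) : Near S r ξ ξ := by
  obtain ⟨x, hx⟩ := exists_rep ξ
  exact ⟨x, x, hx, hx, x.2 r⟩

theorem near_trans {δ : ℝ} (H : HypIneq S δ) {r : ℝ} {ξ η ζ : Boundary S} (h1 : Near S r ξ η)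
    (h2 : Near S r η ζ) : Near S (r - 3 * δ) ξ ζ := by
  obtain ⟨x, y, hx, hy, N, hN⟩ := h1
  obtain ⟨z, hz⟩ := exists_rep ζ
  obtain ⟨M, hM⟩ := near_rep H h2 (show mk y = η from hy) hz
  refine ⟨x, z, hx, hz, max N M, fun i hi j hj => ?_⟩
  exact H.le (hN i (le_of_max_le_left hi) (max N M) (le_max_left _ _))
    (hM (max N M) (le_max_right _ _) j (le_of_max_le_right hj)) (by linarith [H.1]) (by linarith)

theorem eq_of_near {δ : ℝ} (H : HypIneq S δ) {ξ η : Boundary S} (h : ∀ r, Near S r ξ η) :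
    ξ = η := by
  obtain ⟨x, hx⟩ := exists_rep ξ
  obtain ⟨y, hy⟩ := exists_rep η
  rw [← hx, ← hy, mk_eq_iff H]
  intro r
  obtain ⟨N, hN⟩ := near_rep H (h (r + 2 * δ)) hx hy
  exact ⟨N, fun i hi j hj => by have := hN i hi j hj; linarith⟩

theorem near_smul {r : ℝ} (g : Γ) {ξ η : Boundary S} (h : Near S r ξ η) :
    Near S (r - wordLength S g) (g • ξ) (g • η) := by
  obtain ⟨x, y, hx, hy, N, hN⟩ := h
  refine ⟨GromovSeq.smul S g x, GromovSeq.smul S g y, ?_, ?_, N, fun i hi j hj => ?_⟩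
  · rw [← hx]; rfl
  · rw [← hy]; rfl
  · have h1 := hN i hi j hj
    have h2 := (abs_le.1 (abs_gromovProd_mul_sub_le S g (x.1 i) (y.1 j))).1
    change _ ≤ gromovProd S (g * x.1 i) (g * y.1 j)
    linarith

theorem near_mem_nhds {δ : ℝ} (H : HypIneq S δ) (r : ℝ) (ξ : Boundary S) :
    {η | Near S r ξ η} ∈ 𝓝 ξ := by
  rw [mem_nhds_iff]
  refine ⟨{η | ∃ s, ∀ ζ, Near S s η ζ → Near S r ξ ζ}, ?_, ?_, ?_⟩
  · rintro η ⟨s, hs⟩
    exact hs η (near_self s η)
  · rintro η ⟨s, hs⟩
    refine ⟨s + 3 * δ, fun ζ hζ => ⟨s + 3 * δ, fun ω hω => hs ω ?_⟩⟩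
    exact near_mono (by linarith) (near_trans H hζ hω)
  · exact ⟨r, fun ζ hζ => hζ⟩

/-- sequences converging at infinity leave every ball -/
theorem length_large (x : GromovSeq S) (r : ℝ) :
    ∃ N : ℕ, ∀ i ≥ N, r ≤ wordLength S (x.1 i) := by
  obtain ⟨N, hN⟩ := x.2 r
  exact ⟨N, fun i hi => (hN i hi i hi).trans (gromovProd_le_left S _ _)⟩

/-- prefixes of geodesic words -/
theorem exists_prefixes (g : Γ) : ∃ p : ℕ → Γ, ∀ m, m ≤ wordLength S g →
    wordLength S (p m) = m ∧ wordLength S ((p m)⁻¹ * g) + m = wordLength S g ∧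
    ∀ m', m' ≤ m → wordLength S ((p m')⁻¹ * p m) + m' = m := by
  obtain ⟨l, hl, hlp, hll⟩ := exists_geodesic_word S g
  refine ⟨fun m => (l.take m).prod, fun m hm => ?_⟩
  have htake : ∀ m, m ≤ wordLength S g → wordLength S ((l.take m).prod) ≤ m := by
    intro m hm
    refine (wordLength_le S _ fun s hs => hl s (List.mem_of_mem_take hs)).trans ?_
    rw [List.length_take]
    exact min_le_left _ _
  have hdrop : ∀ m, m ≤ wordLength S g → wordLength S ((l.drop m).prod) + m ≤ wordLength S g := by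
    intro m hm
    have := wordLength_le S (l.drop m) fun s hs => hl s (List.mem_of_mem_drop hs)
    rw [List.length_drop, hll] at this
    omega
  have hsplit : ∀ m, (l.take m).prod⁻¹ * g = (l.drop m).prod := by
    intro m
    rw [← hlp, ← List.prod_take_mul_prod_drop l m]
    group
  have h1 : wordLength S g ≤ wordLength S ((l.take m).prod) + wordLength S ((l.drop m).prod) := by
    conv_lhs => rw [← hlp, ← List.prod_take_mul_prod_drop l m]
    exact wordLength_mul_le S _ _
  have h2 := htake m hm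
  have h3 := hdrop m hm
  refine ⟨?_, ?_, fun m' hm' => ?_⟩
  · change wordLength S ((l.take m).prod) = m
    omega
  · change wordLength S ((l.take m).prod⁻¹ * g) + m = wordLength S g
    rw [hsplit]
    omega
  have e : (l.take m').prod⁻¹ * (l.take m).prod = ((l.take m).drop m').prod := by
    rw [inv_mul_eq_iff_eq_mul]
    have := List.prod_take_mul_prod_drop (l.take m) m'
    rw [List.take_take, min_eq_left hm'] at this
    exact this.symm
  have h4 : wordLength S (((l.take m).drop m').prod) + m' ≤ m := by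
    have := wordLength_le S ((l.take m).drop m') fun s hs =>
      hl s (List.mem_of_mem_take (List.mem_of_mem_drop hs))
    rw [List.length_drop, List.length_take] at this
    omega
  have h5 : wordLength S ((l.take m).prod) ≤
      wordLength S ((l.take m').prod) + wordLength S (((l.take m).drop m').prod) := by
    rw [← e]
    have := wordLength_mul_le S ((l.take m').prod) ((l.take m').prod⁻¹ * (l.take m).prod)
    rwa [mul_inv_cancel_left] at this
  have h6 := htake m' (hm'.trans hm)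
  change wordLength S ((l.take m').prod⁻¹ * (l.take m).prod) + m' = m
  rw [e]
  omega

/-- `h` points towards `ξ` up to an error `c`. -/
def Toward (h : Γ) (c : ℝ) (ξ : Boundary S) : Prop :=
  ∀ x : GromovSeq S, mk x = ξ → ∃ N : ℕ, ∀ i ≥ N, (wordLength S h : ℝ) - c ≤ gromovProd S h (x.1 i)

theorem exists_toward {δ : ℝ} (H : HypIneq S δ) (ξ : Boundary S) (k : ℕ) :
    ∃ h : Γ, wordLength S h = k ∧ Toward h δ ξ := by
  obtain ⟨x, hx⟩ := exists_rep ξ
  obtain ⟨N, hN⟩ := x.2 (k + δ)
  have hlen : (k : ℝ) ≤ wordLength S (x.1 N) := by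
    have := (hN N le_rfl N le_rfl).trans (gromovProd_le_left S _ _)
    linarith [H.1]
  have hlen' : k ≤ wordLength S (x.1 N) := by exact_mod_cast hlen
  obtain ⟨p, hp⟩ := exists_prefixes (S := S) (x.1 N)
  obtain ⟨h1, h2, -⟩ := hp k hlen'
  refine ⟨p k, h1, fun y hy => ?_⟩
  have hprod : gromovProd S (p k) (x.1 N) = k := by
    unfold gromovProd
    have : (wordLength S ((p k)⁻¹ * x.1 N) : ℝ) + k = wordLength S (x.1 N) := by exact_mod_cast h2
    rw [h1]
    linarith
  obtain ⟨M, hM⟩ := (mk_eq_iff H).1 (hx.trans hy.symm) (k + δ)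
  refine ⟨M, fun j hj => ?_⟩
  have a1 : (k : ℝ) ≤ gromovProd S (x.1 N) (y.1 j) :=
    H.le (hN N le_rfl (max N M) (le_max_left _ _)) (hM (max N M) (le_max_right _ _) j hj)
      le_rfl le_rfl
  rw [h1]
  exact H.le hprod.ge a1 (by linarith) (by linarith)

end Pool.Agent.Work.MP_462f25_al
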