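import Mathlib

/-!
# Definitions for the cocompactness question on convergence actions

Word-hyperbolic groups, their Gromov boundary with its topology and its group action, and
convergence actions on a compact metrizable space.
-/

open Filter Topology

namespace Pool.Agent.Work.MP_462f25_al

universe u v

/-- A finite generating set of the group `Γ`. -/
structure FinGenSet (Γ : Type u) [Group Γ] where
  /-- the underlying set -/
  carrier : Set Γ
  /-- it is finite -/
  finite : carrier.Finite
  /-- it generates the whole group -/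
  generates : Subgroup.closure carrier = ⊤

variable {Γ : Type u} [Group Γ]

/-- The word length of `g` with respect to the finite generating set `S`: the least length of a
word in the letters `s` and `s⁻¹` (`s ∈ S`) whose product is `g`. -/
noncomputable def wordLength (S : FinGenSet Γ) (g : Γ) : ℕ :=
  sInf {n : ℕ | ∃ l : List Γ, (∀ s ∈ l, s ∈ S.carrier ∨ s⁻¹ ∈ S.carrier) ∧
    l.prod = g ∧ l.length = n}

/-- The Gromov product `(g | h)` of `g` and `h` based at `1`, for the word metric
`d (g, h) = wordLength S (g⁻¹ * h)`. -/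
noncomputable def gromovProd (S : FinGenSet Γ) (g h : Γ) : ℝ :=
  ((wordLength S g : ℝ) + wordLength S h - wordLength S (g⁻¹ * h)) / 2

/-- Gromov hyperbolicity of the group `Γ` with its word metric: for some `δ`,
`(x | z) ≥ min (x | y) (y | z) - δ` for all `x y z`. The base point is `1`; as the word metric is
left-invariant the same inequality then holds at every base point. -/
def IsHyperbolic (S : FinGenSet Γ) : Prop :=
  ∃ δ : ℝ, ∀ x y z : Γ, min (gromovProd S x y) (gromovProd S y z) - δ ≤ gromovProd S x z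

/-- The sequences `x` in `Γ` that converge at infinity: `(x i | x j) → ∞` as `i, j → ∞`. -/
def GromovSeq (S : FinGenSet Γ) : Type u :=
  {x : ℕ → Γ // ∀ r : ℝ, ∃ N : ℕ, ∀ i ≥ N, ∀ j ≥ N, r ≤ gromovProd S (x i) (x j)}

/-- Two sequences converging at infinity are equivalent if `(x i | y j) → ∞` as `i, j → ∞`. -/
def GromovSeq.Rel (S : FinGenSet Γ) (x y : GromovSeq S) : Prop :=
  ∀ r : ℝ, ∃ N : ℕ, ∀ i ≥ N, ∀ j ≥ N, r ≤ gromovProd S (x.1 i) (y.1 j)

/-- The Gromov boundary `∂Γ`: sequences converging at infinity modulo equivalence. -/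
def Boundary (S : FinGenSet Γ) : Type u := Quot (GromovSeq.Rel S)

/-- `Near S r ξ η` says that `(ξ | η) ≥ r`: some representing sequences `x` of `ξ` and `y` of `η`
satisfy `(x i | y j) ≥ r` for all large `i, j`. -/
def Near (S : FinGenSet Γ) (r : ℝ) (ξ η : Boundary S) : Prop :=
  ∃ x y : GromovSeq S, Quot.mk _ x = ξ ∧ Quot.mk _ y = η ∧
    ∃ N : ℕ, ∀ i ≥ N, ∀ j ≥ N, r ≤ gromovProd S (x.1 i) (y.1 j)

/-- The topology of the Gromov boundary: a set `U` is open if for every `ξ ∈ U` there is `r` such
that `U` contains every `η` with `(ξ | η) ≥ r`. -/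
instance (S : FinGenSet Γ) : TopologicalSpace (Boundary S) where
  IsOpen U := ∀ ξ ∈ U, ∃ r : ℝ, ∀ η, Near S r ξ η → η ∈ U
  isOpen_univ := fun _ _ => ⟨0, fun _ _ => trivial⟩
  isOpen_inter := by
    intro U V hU hV ξ hξ
    obtain ⟨r, hr⟩ := hU ξ hξ.1
    obtain ⟨r', hr'⟩ := hV ξ hξ.2
    refine ⟨max r r', fun η hη => ?_⟩
    obtain ⟨x, y, hx, hy, N, hN⟩ := hη
    exact ⟨hr η ⟨x, y, hx, hy, N, fun i hi j hj => (le_max_left _ _).trans (hN i hi j hj)⟩,
      hr' η ⟨x, y, hx, hy, N, fun i hi j hj => (le_max_right _ _).trans (hN i hi j hj)⟩⟩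
  isOpen_sUnion := by
    intro s hs ξ hξ
    obtain ⟨U, hU, hξU⟩ := hξ
    obtain ⟨r, hr⟩ := hs U hU ξ hξU
    exact ⟨r, fun η hη => ⟨U, hU, hr η hη⟩⟩

section WordLength

variable (S : FinGenSet Γ)

theorem exists_word (g : Γ) :
    ∃ l : List Γ, (∀ s ∈ l, s ∈ S.carrier ∨ s⁻¹ ∈ S.carrier) ∧ l.prod = g := by
  have hg : g ∈ Subgroup.closure S.carrier := by rw [S.generates]; trivial
  induction hg using Subgroup.closure_induction with
  | mem x hx => exact ⟨[x], by simpa using Or.inl hx, by simp⟩
  | one => exact ⟨[], by simp, by simp⟩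
  | mul x y _ _ ihx ihy =>
    obtain ⟨l, hl, rfl⟩ := ihx
    obtain ⟨l', hl', rfl⟩ := ihy
    refine ⟨l ++ l', ?_, by simp⟩
    intro s hs
    rcases List.mem_append.1 hs with h | h
    · exact hl s h
    · exact hl' s h
  | inv x _ ih =>
    obtain ⟨l, hl, rfl⟩ := ih
    refine ⟨(l.map (fun x => x⁻¹)).reverse, ?_, (List.prod_inv_reverse l).symm⟩
    intro s hs
    rw [List.mem_reverse, List.mem_map] at hs
    obtain ⟨a, ha, rfl⟩ := hs
    rw [inv_inv]
    exact (hl a ha).symm

theorem wordLength_le (l : List Γ) (hl : ∀ s ∈ l, s ∈ S.carrier ∨ s⁻¹ ∈ S.carrier) :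
    wordLength S l.prod ≤ l.length :=
  Nat.sInf_le ⟨l, hl, rfl, rfl⟩

theorem exists_geodesic_word (g : Γ) :
    ∃ l : List Γ, (∀ s ∈ l, s ∈ S.carrier ∨ s⁻¹ ∈ S.carrier) ∧ l.prod = g ∧
      l.length = wordLength S g := by
  have hne : {n : ℕ | ∃ l : List Γ, (∀ s ∈ l, s ∈ S.carrier ∨ s⁻¹ ∈ S.carrier) ∧
      l.prod = g ∧ l.length = n}.Nonempty := by
    obtain ⟨l, hl, h⟩ := exists_word S g
    exact ⟨l.length, l, hl, h, rfl⟩
  exact Nat.sInf_mem hne

theorem wordLength_one : wordLength S 1 = 0 := by
  have := wordLength_le S [] (by simp)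
  simpa using this

theorem wordLength_mul_le (g h : Γ) : wordLength S (g * h) ≤ wordLength S g + wordLength S h := by
  obtain ⟨l, hl, rfl, hll⟩ := exists_geodesic_word S g
  obtain ⟨l', hl', rfl, hll'⟩ := exists_geodesic_word S h
  rw [← List.prod_append, ← hll, ← hll', ← List.length_append]
  apply wordLength_le
  intro s hs
  rcases List.mem_append.1 hs with h | h
  · exact hl s h
  · exact hl' s h

theorem wordLength_inv_le (g : Γ) : wordLength S g⁻¹ ≤ wordLength S g := by
  obtain ⟨l, hl, rfl, hll⟩ := exists_geodesic_word S g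
  rw [List.prod_inv_reverse, ← hll]
  refine (wordLength_le S _ ?_).trans (by simp)
  intro s hs
  rw [List.mem_reverse, List.mem_map] at hs
  obtain ⟨a, ha, rfl⟩ := hs
  rw [inv_inv]
  exact (hl a ha).symm

theorem wordLength_inv (g : Γ) : wordLength S g⁻¹ = wordLength S g :=
  le_antisymm (wordLength_inv_le S g) (by simpa using wordLength_inv_le S g⁻¹)

theorem abs_gromovProd_mul_sub_le (g x y : Γ) :
    |gromovProd S (g * x) (g * y) - gromovProd S x y| ≤ wordLength S g := by
  have e : (g * x)⁻¹ * (g * y) = x⁻¹ * y := by group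
  have h1 : (wordLength S (g * x) : ℝ) ≤ wordLength S g + wordLength S x := by
    exact_mod_cast wordLength_mul_le S g x
  have h2 : (wordLength S (g * y) : ℝ) ≤ wordLength S g + wordLength S y := by
    exact_mod_cast wordLength_mul_le S g y
  have h3 : (wordLength S x : ℝ) ≤ wordLength S g + wordLength S (g * x) := by
    have := wordLength_mul_le S g⁻¹ (g * x)
    rw [inv_mul_cancel_left, wordLength_inv] at this
    exact_mod_cast this
  have h4 : (wordLength S y : ℝ) ≤ wordLength S g + wordLength S (g * y) := by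
    have := wordLength_mul_le S g⁻¹ (g * y)
    rw [inv_mul_cancel_left, wordLength_inv] at this
    exact_mod_cast this
  unfold gromovProd
  rw [e, abs_le]
  constructor <;> linarith

end WordLength

/-- Left translation of a sequence converging at infinity. -/
noncomputable def GromovSeq.smul (S : FinGenSet Γ) (g : Γ) (x : GromovSeq S) : GromovSeq S :=
  ⟨fun n => g * x.1 n, fun r => by
    obtain ⟨N, hN⟩ := x.2 (r + wordLength S g)
    refine ⟨N, fun i hi j hj => ?_⟩
    have h1 := hN i hi j hj
    have h2 := (abs_le.1 (abs_gromovProd_mul_sub_le S g (x.1 i) (x.1 j))).1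
    linarith⟩

/-- The action of `Γ` on its Gromov boundary: `g • [x n] = [g * x n]`. -/
noncomputable instance (S : FinGenSet Γ) : MulAction Γ (Boundary S) where
  smul g := Quot.map (GromovSeq.smul S g) (by
    intro x y h r
    obtain ⟨N, hN⟩ := h (r + wordLength S g)
    refine ⟨N, fun i hi j hj => ?_⟩
    have h1 := hN i hi j hj
    have h2 := (abs_le.1 (abs_gromovProd_mul_sub_le S g (x.1 i) (y.1 j))).1
    change r ≤ gromovProd S (g * x.1 i) (g * y.1 j)
    linarith)
  one_smul := by
    rintro ⟨x⟩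
    change Quot.mk _ (GromovSeq.smul S 1 x) = Quot.mk _ x
    congr 1
    apply Subtype.ext
    funext n
    exact one_mul _
  mul_smul := by
    rintro g h ⟨x⟩
    change Quot.mk _ (GromovSeq.smul S (g * h) x) =
      Quot.mk _ (GromovSeq.smul S g (GromovSeq.smul S h x))
    congr 1
    apply Subtype.ext
    funext n
    exact mul_assoc _ _ _

/-- The action of `Γ` on `X` is a convergence action: every sequence `γ` of pairwise distinct
elements has a subsequence `γ ∘ ψ` and points `a, b` such that `γ (ψ n) x → a` uniformly for `x` in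
compact subsets `K` of `X \ {b}` (uniform convergence to the constant `a`: every neighbourhood of
`a` contains `γ (ψ n) K` for all large `n`). -/
def IsConvergenceAction (Γ : Type u) (X : Type v) [Group Γ] [TopologicalSpace X]
    [MulAction Γ X] : Prop :=
  ∀ γ : ℕ → Γ, Function.Injective γ → ∃ (ψ : ℕ → ℕ) (a b : X), StrictMono ψ ∧
    ∀ K : Set X, IsCompact K → b ∉ K → ∀ V ∈ 𝓝 a, ∀ᶠ n in atTop, ∀ x ∈ K, γ (ψ n) • x ∈ V

end Pool.Agent.Work.MP_462f25_al
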