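import Pool.Agent.Work.MP_462f25_al.Basic

open Filter Topology

namespace Pool.Agent.Work.MP_462f25_al

universe u v

variable {Γ : Type u} [Group Γ] {S : FinGenSet Γ}

theorem ball_finite (S : FinGenSet Γ) (m : ℕ) : {g : Γ | wordLength S g ≤ m}.Finite := by
  classical
  let T : Set Γ := {s | s ∈ S.carrier ∨ s⁻¹ ∈ S.carrier}
  have hT : T.Finite := S.finite.union (S.finite.preimage inv_injective.injOn)
  have : Finite T := hT.to_subtype
  refine ((List.finite_length_le T m).image fun l => (l.map Subtype.val).prod).subset ?_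
  intro g hg
  obtain ⟨l, hl, hlp, hll⟩ := exists_geodesic_word S g
  have hl' : ∀ s ∈ l, s ∈ T := hl
  lift l to List T using hl'
  refine ⟨l, ?_, hlp⟩
  rw [List.length_map] at hll
  change l.length ≤ m
  rw [hll]
  exact hg

/-- along an ultrafilter, geodesics to points going to infinity converge to a geodesic ray -/
theorem exists_ray (𝒰 : Ultrafilter ℕ) (y : ℕ → Γ)
    (hy : ∀ m : ℕ, ∀ᶠ n in (𝒰 : Filter ℕ), m ≤ wordLength S (y n)) :
    ∃ p : ℕ → Γ, (∀ m, wordLength S (p m) = m) ∧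
      (∀ m' m, m' ≤ m → wordLength S ((p m')⁻¹ * p m) + m' = m) ∧
      ∀ m, ∀ᶠ n in (𝒰 : Filter ℕ), wordLength S ((p m)⁻¹ * y n) + m = wordLength S (y n) := by
  choose P hP using fun n => exists_prefixes (S := S) (y n)
  have hex : ∀ m : ℕ, ∃ g : Γ, ∀ᶠ n in (𝒰 : Filter ℕ), P n m = g := by
    intro m
    have hmem : {g : Γ | wordLength S g ≤ m} ∈ 𝒰.map (fun n => P n m) := by
      change ∀ᶠ n in (𝒰 : Filter ℕ), wordLength S (P n m) ≤ m
      filter_upwards [hy m] with n hn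
      exact ((hP n m hn).1).le
    obtain ⟨g, -, hg⟩ := Ultrafilter.eq_pure_of_finite_mem (ball_finite S m) hmem
    refine ⟨g, ?_⟩
    have : {g} ∈ 𝒰.map (fun n => P n m) := by
      rw [hg]
      exact Ultrafilter.mem_pure.2 rfl
    exact this
  choose p hp using hex
  refine ⟨p, fun m => ?_, fun m' m hm => ?_, fun m => ?_⟩
  · obtain ⟨n, h1, h2⟩ := ((hp m).and (hy m)).exists
    rw [← h1]
    exact (hP n m h2).1
  · obtain ⟨n, ⟨h1, h1'⟩, h2⟩ := (((hp m).and (hp m')).and (hy m)).exists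
    rw [← h1, ← h1']
    exact (hP n m h2).2.2 m' hm
  · filter_upwards [hp m, hy m] with n h1 h2
    rw [← h1]
    exact (hP n m h2).2.1

theorem ray_gromov (p : ℕ → Γ) (h1 : ∀ m, wordLength S (p m) = m)
    (h2 : ∀ m' m, m' ≤ m → wordLength S ((p m')⁻¹ * p m) + m' = m) (r : ℝ) :
    ∃ N : ℕ, ∀ i ≥ N, ∀ j ≥ N, r ≤ gromovProd S (p i) (p j) := by
  have key : ∀ i j : ℕ, i ≤ j → gromovProd S (p i) (p j) = i := by
    intro i j hij
    have h := h2 i j hij
    have h' : (wordLength S ((p i)⁻¹ * p j) : ℝ) + i = j := by exact_mod_cast h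
    unfold gromovProd
    rw [h1, h1]
    linarith
  obtain ⟨N, hN⟩ := exists_nat_ge r
  refine ⟨N, fun i hi j hj => ?_⟩
  have hi' : (N : ℝ) ≤ i := by exact_mod_cast hi
  have hj' : (N : ℝ) ≤ j := by exact_mod_cast hj
  rcases le_total i j with hij | hij
  · rw [key i j hij]
    linarith
  · rw [gromovProd_comm, key j i hij]
    linarith

/-- a nonempty boundary has at least two points -/
theorem exists_ne {δ : ℝ} (H : HypIneq S δ) (ξ : Boundary S) : ∃ η : Boundary S, η ≠ ξ := by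
  obtain ⟨x, hx⟩ := exists_rep ξ
  choose P hP using fun n => exists_prefixes (S := S) (x.1 n)
  let m : ℕ → ℕ := fun n => wordLength S (x.1 n) / 2
  have hm : ∀ n, m n ≤ wordLength S (x.1 n) := fun n => Nat.div_le_self _ _
  have hlarge : ∀ k : ℕ, ∀ᶠ n in (hyperfilter ℕ : Filter ℕ), 2 * k ≤ wordLength S (x.1 n) := by
    intro k
    have h : ∀ᶠ n in (atTop : Filter ℕ), 2 * k ≤ wordLength S (x.1 n) := by
      obtain ⟨N, hN⟩ := length_large x (2 * k : ℝ)
      filter_upwards [eventually_ge_atTop N] with n hn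
      have := hN n hn
      exact_mod_cast this
    exact h.filter_mono (Nat.hyperfilter_le_atTop)
  have e1 : ∀ n, wordLength S (P n (m n))⁻¹ = m n := fun n => by
    rw [wordLength_inv]; exact (hP n (m n) (hm n)).1
  have e2 : ∀ n, wordLength S ((P n (m n))⁻¹ * x.1 n) + m n = wordLength S (x.1 n) := fun n =>
    (hP n (m n) (hm n)).2.1
  obtain ⟨p, hp1, hp2, hp3⟩ := exists_ray (S := S) (hyperfilter ℕ) (fun n => (P n (m n))⁻¹) (by
    intro k
    filter_upwards [hlarge k] with n hn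
    rw [e1]
    change k ≤ wordLength S (x.1 n) / 2
    omega)
  obtain ⟨p', hp1', hp2', hp3'⟩ := exists_ray (S := S) (hyperfilter ℕ)
    (fun n => (P n (m n))⁻¹ * x.1 n) (by
    intro k
    filter_upwards [hlarge k] with n hn
    have h1 := e2 n
    have h2 : m n = wordLength S (x.1 n) / 2 := rfl
    omega)
  let y : GromovSeq S := ⟨p, ray_gromov p hp1 hp2⟩
  let y' : GromovSeq S := ⟨p', ray_gromov p' hp1' hp2'⟩
  have hprod : ∀ i j, gromovProd S (p i) (p' j) ≤ 0 := by
    intro i j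
    obtain ⟨n, h1, h2⟩ := ((hp3 i).and (hp3' j)).exists
    have h3 := e1 n
    have h4 := e2 n
    have h5 : wordLength S (x.1 n) ≤ wordLength S ((p i)⁻¹ * (P n (m n))⁻¹) +
        wordLength S ((p i)⁻¹ * p' j) + wordLength S ((p' j)⁻¹ * ((P n (m n))⁻¹ * x.1 n)) := by
      have a1 := wordLength_mul_le S ((p i)⁻¹ * (P n (m n))⁻¹)⁻¹ ((p i)⁻¹ * p' j)
      have a2 := wordLength_mul_le S (((p i)⁻¹ * (P n (m n))⁻¹)⁻¹ * ((p i)⁻¹ * p' j))
        ((p' j)⁻¹ * ((P n (m n))⁻¹ * x.1 n))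
      rw [wordLength_inv] at a1
      have a3 : ((p i)⁻¹ * (P n (m n))⁻¹)⁻¹ * ((p i)⁻¹ * p' j) *
          ((p' j)⁻¹ * ((P n (m n))⁻¹ * x.1 n)) = x.1 n := by group
      rw [a3] at a2
      omega
    have h6 : i + j ≤ wordLength S ((p i)⁻¹ * p' j) := by omega
    have h7 : (i : ℝ) + j ≤ wordLength S ((p i)⁻¹ * p' j) := by exact_mod_cast h6
    unfold gromovProd
    rw [hp1, hp1']
    linarith
  have hne : mk y ≠ mk y' := by
    intro h
    obtain ⟨N, hN⟩ := (mk_eq_iff H).1 h 1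
    have := (hN N le_rfl N le_rfl).trans (hprod N N)
    linarith
  by_cases h : mk y = ξ
  · exact ⟨mk y', fun h' => hne (h.trans h'.symm)⟩
  · exact ⟨mk y, h⟩

theorem infinite_of_boundary (ξ : Boundary S) : Infinite Γ := by
  by_contra hfin
  rw [not_infinite_iff_finite] at hfin
  obtain ⟨x, hx⟩ := exists_rep ξ
  obtain ⟨M, hM⟩ := (Set.finite_range (wordLength S)).bddAbove
  obtain ⟨N, hN⟩ := length_large x ((M : ℝ) + 1)
  have h1 := hN N le_rfl
  have h2 : wordLength S (x.1 N) ≤ M := hM ⟨_, rfl⟩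
  have h3 : (wordLength S (x.1 N) : ℝ) ≤ M := by exact_mod_cast h2
  linarith

end Pool.Agent.Work.MP_462f25_al
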