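import Pool.Agent.Work.MP_462f25_al.Shadow
import Pool.Agent.Work.MP_462f25_al.TwoPoints

open Filter Topology

namespace Pool.Agent.Work.MP_462f25_al

universe u v

section TwoPointLimit

variable {Γ : Type u} [Group Γ] {X : Type v} [MetricSpace X] [CompactSpace X] [MulAction Γ X]
  [ContinuousConstSMul Γ X]

omit [CompactSpace X] [ContinuousConstSMul Γ X] in
theorem tendsto_of_conv {γ : ℕ → Γ} {a b : X}
    (h : ∀ K : Set X, IsCompact K → b ∉ K → ∀ V ∈ 𝓝 a, ∀ᶠ n in atTop, ∀ x ∈ K, γ n • x ∈ V)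
    {x : X} (hx : x ≠ b) : Tendsto (fun n => γ n • x) atTop (𝓝 a) := by
  rw [tendsto_def]
  intro V hV
  have h1 := h {x} isCompact_singleton (by simpa using hx.symm) V hV
  filter_upwards [h1] with n hn
  exact hn x rfl

omit [CompactSpace X] [ContinuousConstSMul Γ X] in
theorem two_conv (hX : IsConvergenceAction Γ X) {p q x : X} (hpq : p ≠ q) (hxp : x ≠ p)
    (hxq : x ≠ q) {ε : ℝ} (hε : ε < dist p q) (β : ℕ → Γ) (hβ : Function.Injective β)
    (hβp : ∀ n, β n • p = p) (hβq : ∀ n, β n • q = q) (hx : ∀ n, dist (β n • x) p < ε) :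
    ∃ ψ : ℕ → ℕ, StrictMono ψ ∧ ∀ K : Set X, IsCompact K → q ∉ K → ∀ V ∈ 𝓝 p,
      ∀ᶠ n in atTop, ∀ y ∈ K, β (ψ n) • y ∈ V := by
  obtain ⟨ψ, a, b, hψ, hab⟩ := hX β hβ
  have hp : p ≠ b → a = p := by
    intro h
    have h1 := tendsto_of_conv hab h
    simp only [hβp] at h1
    exact tendsto_nhds_unique h1 tendsto_const_nhds
  have hq : q ≠ b → a = q := by
    intro h
    have h1 := tendsto_of_conv hab h
    simp only [hβq] at h1
    exact tendsto_nhds_unique h1 tendsto_const_nhds
  have hbx : x ≠ b := by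
    intro h
    have h1 := hp (by rw [← h]; exact hxp.symm)
    have h2 := hq (by rw [← h]; exact hxq.symm)
    exact hpq (h1.symm.trans h2)
  have hxa := tendsto_of_conv hab hbx
  have hdist : dist a p ≤ ε := by
    have h1 : Tendsto (fun n => dist (β (ψ n) • x) p) atTop (𝓝 (dist a p)) :=
      hxa.dist tendsto_const_nhds
    exact le_of_tendsto h1 (Eventually.of_forall fun n => (hx (ψ n)).le)
  have haq : a ≠ q := by
    intro h
    rw [h, dist_comm] at hdist
    linarith
  have hbq : q = b := by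
    by_contra h
    exact haq (hq h)
  have hap : a = p := hp (by rw [← hbq]; exact hpq)
  refine ⟨ψ, hψ, ?_⟩
  rw [← hap, hbq]
  exact hab

theorem two_aux [Infinite Γ] (hX : IsConvergenceAction Γ X) {p q : X} (hpq : p ≠ q)
    (hp : ∀ γ : Γ, γ • p = p ∨ γ • p = q) (hq : ∀ γ : Γ, γ • q = p ∨ γ • q = q)
    {x : X} (hxp : x ≠ p) (hxq : x ≠ q) {ε : ℝ} (hε : ε < dist p q)
    (hx : ∀ γ : Γ, dist (γ • x) (γ • p) < ε) : False := by
  classical
  -- infinitely many elements fixing both points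
  obtain ⟨g, hg, y, hy⟩ : ∃ g : ℕ → Γ, Function.Injective g ∧ ∃ y, ∀ n, g n • p = y := by
    let f : Γ → Bool := fun γ => decide (γ • p = p)
    obtain ⟨y, hy⟩ := Finite.exists_infinite_fiber f
    let e := Infinite.natEmbedding (f ⁻¹' {y})
    refine ⟨fun n => (e n : Γ), fun n m h => e.injective (Subtype.ext h), ?_⟩
    cases y with
    | true =>
      refine ⟨p, fun n => ?_⟩
      have h1 : f (e n) = true := (e n).2
      exact of_decide_eq_true h1
    | false =>
      refine ⟨q, fun n => ?_⟩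
      have h1 : f (e n) = false := (e n).2
      exact (hp (e n)).resolve_left (of_decide_eq_false h1)
  let β : ℕ → Γ := fun n => (g 0)⁻¹ * g n
  have hβ : Function.Injective β := fun n m h => hg (mul_left_cancel h)
  have hβp : ∀ n, β n • p = p := by
    intro n
    change ((g 0)⁻¹ * g n) • p = p
    rw [mul_smul, hy n, ← hy 0, inv_smul_smul]
  have hβq : ∀ n, β n • q = q := by
    intro n
    rcases hq (β n) with h | h
    · exfalso
      have h1 : β n • p = β n • q := (hβp n).trans h.symm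
      exact hpq (smul_left_cancel _ h1)
    · exact h
  have hβx : ∀ n, dist (β n • x) p < ε := fun n => by
    have := hx (β n)
    rwa [hβp] at this
  obtain ⟨ψ, hψ, hconv⟩ := two_conv hX hpq hxp hxq hε β hβ hβp hβq hβx
  let β' : ℕ → Γ := fun n => (β (ψ n))⁻¹
  have hβ' : Function.Injective β' := fun n m h => hψ.injective (hβ (inv_injective h))
  have hβ'p : ∀ n, β' n • p = p := fun n => by
    change (β (ψ n))⁻¹ • p = p
    rw [inv_smul_eq_iff, hβp]
  have hβ'q : ∀ n, β' n • q = q := fun n => by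
    change (β (ψ n))⁻¹ • q = q
    rw [inv_smul_eq_iff, hβq]
  have hβ'x : ∀ n, dist (β' n • x) p < ε := fun n => by
    have := hx (β' n)
    rwa [hβ'p] at this
  obtain ⟨ψ', hψ', hconv'⟩ := two_conv hX hpq hxp hxq hε β' hβ' hβ'p hβ'q hβ'x
  have hD : 0 < dist p q := dist_pos.2 hpq
  have hxtend : Tendsto (fun n => β (ψ n) • x) atTop (𝓝 p) :=
    tendsto_of_conv (γ := fun n => β (ψ n)) hconv hxq
  have hW : ∀ᶠ n in atTop, β (ψ n) • x ∈ Metric.closedBall p (dist p q / 2) :=
    hxtend.eventually (Metric.closedBall_mem_nhds p (by linarith))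
  have hqW : q ∉ Metric.closedBall p (dist p q / 2) := by
    rw [Metric.mem_closedBall, dist_comm]
    linarith
  have h1 := hconv' _ (Metric.isClosed_closedBall.isCompact) hqW (Metric.ball p (dist x p))
    (Metric.ball_mem_nhds p (dist_pos.2 hxp))
  obtain ⟨n, hn1, hn2⟩ := (h1.and (hψ'.tendsto_atTop.eventually hW)).exists
  have h2 := hn1 _ hn2
  have h3 : β' (ψ' n) • β (ψ (ψ' n)) • x = x := inv_smul_smul _ _
  rw [h3, Metric.mem_ball] at h2
  exact lt_irrefl _ h2

/-- a uniform modulus of continuity for finitely many group elements -/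
theorem exists_modulus {F : Set Γ} (hF : F.Finite) {η : ℝ} (hη : 0 < η) :
    ∃ ε : ℝ, 0 < ε ∧ ε ≤ η ∧ ∀ s ∈ F, ∀ y z : X, dist y z < ε → dist (s • y) (s • z) < η := by
  have h : ∀ᶠ p in uniformity X, ∀ s ∈ F, dist (s • p.1) (s • p.2) < η := by
    rw [eventually_all_finite hF]
    intro s _
    have hc : UniformContinuous fun y : X => s • y :=
      CompactSpace.uniformContinuous_of_continuous (continuous_const_smul s)
    exact hc (Metric.dist_mem_uniformity hη)
  obtain ⟨ε, hε, h⟩ := Metric.mem_uniformity_dist.1 h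
  refine ⟨min ε η, lt_min hε hη, min_le_right _ _, fun s hs y z hyz => ?_⟩
  exact h (lt_of_lt_of_le hyz (min_le_left _ _)) s hs

theorem two_point_case [Infinite Γ] (S : FinGenSet Γ) (hX : IsConvergenceAction Γ X) {p q : X}
    (hpq : p ≠ q) (hinv : ∀ γ : Γ, ∀ x ∈ ({p, q} : Set X), γ • x ∈ ({p, q} : Set X)) :
    ∃ K : Set X, IsCompact K ∧ K ⊆ ({p, q} : Set X)ᶜ ∧
      ∀ x ∈ ({p, q} : Set X)ᶜ, ∃ γ : Γ, γ • x ∈ K := by
  have hD : 0 < dist p q := dist_pos.2 hpq
  have hT : {s : Γ | s ∈ S.carrier ∨ s⁻¹ ∈ S.carrier}.Finite :=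
    S.finite.union (S.finite.preimage inv_injective.injOn)
  obtain ⟨ε, hε0, hε1, hε⟩ := exists_modulus (X := X) hT (η := dist p q / 4) (by linarith)
  have hne : ({p, q} : Set X).Nonempty := ⟨p, by simp⟩
  refine ⟨{x | ε ≤ Metric.infDist x {p, q}}, ?_, ?_, ?_⟩
  · exact (isClosed_le continuous_const (Metric.continuous_infDist_pt _)).isCompact
  · intro x hx hxL
    have h1 : Metric.infDist x {p, q} = 0 := Metric.infDist_zero_of_mem hxL
    have h2 : ε ≤ Metric.infDist x {p, q} := hx
    linarith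
  · intro x hxL
    by_contra hcon
    have hcon' : ∀ γ : Γ, ∃ c ∈ ({p, q} : Set X), dist (γ • x) c < ε := by
      intro γ
      have h1 : ¬ ε ≤ Metric.infDist (γ • x) {p, q} := fun h => hcon ⟨γ, h⟩
      exact (Metric.infDist_lt_iff hne).1 (not_le.1 h1)
    choose c hcL hc using hcon'
    have hsep : ∀ y ∈ ({p, q} : Set X), ∀ z ∈ ({p, q} : Set X), dist y z < dist p q → y = z := by
      intro y hy z hz h
      rcases hy with rfl | hy <;> rcases hz with rfl | hz
      · rfl
      · rw [Set.mem_singleton_iff] at hz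
        subst hz
        exact absurd h (lt_irrefl _)
      · rw [Set.mem_singleton_iff] at hy
        subst hy
        rw [dist_comm] at h
        exact absurd h (lt_irrefl _)
      · rw [Set.mem_singleton_iff] at hy hz
        rw [hy, hz]
    have hstep : ∀ s ∈ {s : Γ | s ∈ S.carrier ∨ s⁻¹ ∈ S.carrier}, ∀ γ : Γ,
        c (s * γ) = s • c γ := by
      intro s hs γ
      apply hsep _ (hcL _) _ (hinv s _ (hcL _))
      have h1 := hc (s * γ)
      have h2 := hε s hs _ _ (hc γ)
      rw [mul_smul] at h1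
      calc dist (c (s * γ)) (s • c γ) ≤ dist (c (s * γ)) (s • γ • x) +
            dist (s • γ • x) (s • c γ) := dist_triangle _ _ _
        _ = dist (s • γ • x) (c (s * γ)) + dist (s • γ • x) (s • c γ) := by
            rw [dist_comm (c (s * γ))]
        _ < dist p q := by linarith
    have hword : ∀ l : List Γ, (∀ s ∈ l, s ∈ S.carrier ∨ s⁻¹ ∈ S.carrier) →
        c l.prod = l.prod • c 1 := by
      intro l
      induction l with
      | nil => intro _; simp
      | cons s l ih =>
        intro h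
        rw [List.prod_cons, hstep s (h s (by simp)), ih fun t ht => h t (by simp [ht]), mul_smul]
    have hall : ∀ γ : Γ, c γ = γ • c 1 := by
      intro γ
      obtain ⟨l, hl, rfl⟩ := exists_word S γ
      exact hword l hl
    have hall' : ∀ γ : Γ, dist (γ • x) (γ • c 1) < ε := fun γ => by rw [← hall]; exact hc γ
    have hp : ∀ γ : Γ, γ • p = p ∨ γ • p = q := fun γ => hinv γ p (by simp)
    have hq : ∀ γ : Γ, γ • q = p ∨ γ • q = q := fun γ => hinv γ q (by simp)
    have hxp : x ≠ p := fun h => hxL (by simp [h])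
    have hxq : x ≠ q := fun h => hxL (by simp [h])
    rcases hcL 1 with h | h
    · rw [h] at hall'
      exact two_aux hX hpq hp hq hxp hxq (by linarith) hall'
    · rw [Set.mem_singleton_iff] at h
      rw [h] at hall'
      exact two_aux hX hpq.symm (fun γ => (hq γ).symm) (fun γ => (hp γ).symm) hxq hxp
        (by rw [dist_comm]; linarith) hall'

end TwoPointLimit

section General

variable {Γ : Type u} [Group Γ] {S : FinGenSet Γ} {X : Type v} [MetricSpace X] [CompactSpace X]
  [MulAction Γ X] [ContinuousConstSMul Γ X]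

omit [CompactSpace X] [MulAction Γ X] [ContinuousConstSMul Γ X] in
/-- closeness in the limit set implies closeness in the boundary -/
theorem exists_near_of_dist {δ : ℝ} (H : HypIneq S δ) {L : Set X} (hL : IsCompact L)
    (φ : Boundary S ≃ₜ L) (r : ℝ) :
    ∃ η : ℝ, 0 < η ∧ ∀ ξ ζ : Boundary S, dist (φ ξ : X) (φ ζ : X) < η → Near S r ξ ζ := by
  have hc : ∀ z : L, ∃ U : Set L, IsOpen U ∧ z ∈ U ∧
      ∀ y ∈ U, Near S (r + 3 * δ) (φ.symm z) (φ.symm y) := by
    intro z
    have h1 : φ.symm ⁻¹' {η | Near S (r + 3 * δ) (φ.symm z) η} ∈ 𝓝 z :=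
      φ.symm.continuous.continuousAt (near_mem_nhds H (r + 3 * δ) (φ.symm z))
    obtain ⟨U, hU, hUo, hzU⟩ := mem_nhds_iff.1 h1
    exact ⟨U, hUo, hzU, fun y hy => hU hy⟩
  choose U hUo hzU hU using hc
  have : CompactSpace L := isCompact_iff_compactSpace.1 hL
  obtain ⟨η, hη, h⟩ := lebesgue_number_lemma_of_metric (s := (Set.univ : Set L)) isCompact_univ hUo
    (fun z _ => Set.mem_iUnion.2 ⟨z, hzU z⟩)
  refine ⟨η, hη, fun ξ ζ hd => ?_⟩
  obtain ⟨i, hi⟩ := h (φ ξ) (Set.mem_univ _)
  have h1 := hU i (φ ξ) (hi (Metric.mem_ball_self hη))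
  have h2 := hU i (φ ζ) (hi (by rw [Metric.mem_ball, dist_comm]; exact hd))
  rw [Homeomorph.symm_apply_apply] at h1 h2
  have h3 := near_trans H (near_symm h1) h2
  exact near_mono (by linarith) h3

theorem three_point_case {δ : ℝ} (H : HypIneq S δ) (hX : IsConvergenceAction Γ X)
    (L : Set X) (hL : IsCompact L) (hne : L.Nonempty) (hinv : ∀ γ : Γ, ∀ x ∈ L, γ • x ∈ L)
    (φ : Boundary S ≃ₜ L)
    (hφ : ∀ (γ : Γ) (ξ : Boundary S), ((φ (γ • ξ) : L) : X) = γ • ((φ ξ : L) : X))
    (h3 : ∀ a b : X, ∃ c ∈ L, c ≠ a ∧ c ≠ b) :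
    ∃ K : Set X, IsCompact K ∧ K ⊆ Lᶜ ∧ ∀ x ∈ Lᶜ, ∃ γ : Γ, γ • x ∈ K := by
  obtain ⟨k, hk⟩ := exists_nat_ge (11 * δ + 2)
  have : CompactSpace L := isCompact_iff_compactSpace.1 hL
  have : CompactSpace (Boundary S) := φ.symm.compactSpace
  obtain ⟨η, hη, hnear⟩ := exists_near_of_dist H hL φ (8 * δ + 1)
  have hF : {g : Γ | wordLength S g ≤ k}.Finite := ball_finite S k
  obtain ⟨ε, hε0, hε1, hε⟩ := exists_modulus (X := X) hF (η := η / 2) (by linarith)
  refine ⟨{x | ε ≤ Metric.infDist x L}, ?_, ?_, ?_⟩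
  · exact (isClosed_le continuous_const (Metric.continuous_infDist_pt _)).isCompact
  · intro x hx hxL
    have h1 : Metric.infDist x L = 0 := Metric.infDist_zero_of_mem hxL
    have h2 : ε ≤ Metric.infDist x L := hx
    linarith
  · intro x hxL
    by_contra hcon
    have hcon' : ∀ γ : Γ, ∃ c : L, dist (γ • x) (c : X) < ε := by
      intro γ
      have h1 : ¬ ε ≤ Metric.infDist (γ • x) L := fun h => hcon ⟨γ, h⟩
      obtain ⟨c, hc, hc'⟩ := (Metric.infDist_lt_iff hne).1 (not_le.1 h1)
      exact ⟨⟨c, hc⟩, hc'⟩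
    choose c hc using hcon'
    choose t ht1 ht2 using fun ξ : Boundary S => exists_toward H ξ k
    -- the sequence following the pseudo-orbit
    let γ : ℕ → Γ := fun n => Nat.rec (motive := fun _ => Γ) 1
      (fun _ g => (t (φ.symm (c g)))⁻¹ * g) n
    have hγ0 : γ 0 = 1 := rfl
    have hγs : ∀ n, γ (n + 1) = (t (φ.symm (c (γ n))))⁻¹ * γ n := fun n => rfl
    have hq : ∀ n, Near S (8 * δ + 1) ((t (φ.symm (c (γ n))))⁻¹ • φ.symm (c (γ n)))
        (φ.symm (c (γ (n + 1)))) := by
      intro n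
      apply hnear
      rw [hφ, Homeomorph.apply_symm_apply, Homeomorph.apply_symm_apply]
      have hlen : wordLength S (t (φ.symm (c (γ n))))⁻¹ ≤ k := by
        rw [wordLength_inv, ht1]
      have h1 := hε _ hlen _ _ (hc (γ n))
      have h2 := hc (γ (n + 1))
      have h4 : γ (n + 1) • x = (t (φ.symm (c (γ n))))⁻¹ • γ n • x := by
        rw [hγs, mul_smul]
      rw [h4] at h2
      calc dist ((t (φ.symm (c (γ n))))⁻¹ • (c (γ n) : X)) (c (γ (n + 1)) : X)
          ≤ dist ((t (φ.symm (c (γ n))))⁻¹ • (c (γ n) : X))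
              ((t (φ.symm (c (γ n))))⁻¹ • γ n • x) +
            dist ((t (φ.symm (c (γ n))))⁻¹ • γ n • x) (c (γ (n + 1)) : X) :=
            dist_triangle _ _ _
        _ < η := by
            rw [dist_comm ((t (φ.symm (c (γ n))))⁻¹ • (c (γ n) : X))]
            linarith
    obtain ⟨hinj, l, hl⟩ := shadow H hk (fun n => φ.symm (c (γ n)))
      (fun n => t (φ.symm (c (γ n)))) γ (fun n => ht1 _) (fun n => ht2 _) hγ0 hγs hq
    obtain ⟨ψ, a, b, hψ, hab⟩ := hX γ hinj
    -- the repelling point lies in `L`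
    have hbL : b ∈ L := by
      by_contra hbL
      obtain ⟨p, hp, -⟩ := h3 b b
      obtain ⟨p', hp', hpp', -⟩ := h3 p p
      have hd : 0 < dist p p' := dist_pos.2 hpp'.symm
      obtain ⟨n, hn⟩ := (hab L hL hbL (Metric.ball a (dist p p' / 2))
        (Metric.ball_mem_nhds a (by linarith))).exists
      have e1 := hn ((γ (ψ n))⁻¹ • p) (hinv _ _ hp)
      have e2 := hn ((γ (ψ n))⁻¹ • p') (hinv _ _ hp')
      rw [smul_inv_smul, Metric.mem_ball] at e1 e2
      have := dist_triangle_right p p' a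
      linarith
    have hxb : x ≠ b := fun h => hxL (h ▸ hbL)
    obtain ⟨μ, hμL, hμl, hμb⟩ := h3 (φ l : X) b
    have t1 := tendsto_of_conv hab hxb
    have t2 := tendsto_of_conv hab hμb
    have t3 := t1.eventually (Metric.ball_mem_nhds a (show 0 < η / 4 by linarith))
    have t4 := t2.eventually (Metric.ball_mem_nhds a (show 0 < η / 4 by linarith))
    have hμ : φ.symm ⟨μ, hμL⟩ = l := by
      apply hl
      have t5 : ∀ᶠ n in atTop, Near S (8 * δ + 1) (φ.symm (c (γ (ψ n))))
          (γ (ψ n) • φ.symm ⟨μ, hμL⟩) := by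
        filter_upwards [t3, t4] with n h1 h2
        apply hnear
        rw [hφ, Homeomorph.apply_symm_apply, Homeomorph.apply_symm_apply]
        have h5 := hc (γ (ψ n))
        have h6 := dist_triangle (c (γ (ψ n)) : X) (γ (ψ n) • x) (γ (ψ n) • μ)
        have h7 := dist_triangle_right (γ (ψ n) • x) (γ (ψ n) • μ) a
        rw [dist_comm (c (γ (ψ n)) : X) (γ (ψ n) • x)] at h6
        change dist (c (γ (ψ n)) : X) (γ (ψ n) • μ) < η
        linarith
      exact (hψ.tendsto_atTop.frequently t5.frequently)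
    apply hμl
    rw [← hμ, Homeomorph.apply_symm_apply]

end General

end Pool.Agent.Work.MP_462f25_al
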