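import Pool.Agent.Work.MP_462f25_al.Basic

open Filter Topology

namespace Pool.Agent.Work.MP_462f25_al

universe u v

variable {Γ : Type u} [Group Γ] {S : FinGenSet Γ}

theorem step {δ : ℝ} (H : HypIneq S δ) {k : ℕ} {h : Γ} (hlen : wordLength S h = k)
    {ξ ζ : Boundary S} (htow : Toward h δ ξ) {r : ℝ} (hr : 4 * δ < r)
    (hn : Near S r (h⁻¹ • ξ) (h⁻¹ • ζ)) :
    Near S (r + k - 5 * δ) ξ ζ ∧ Toward h (2 * δ) ζ := by
  have key : ∀ x z : GromovSeq S, mk x = ξ → mk z = ζ → ∃ N : ℕ, ∀ i ≥ N, ∀ j ≥ N,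
      r + k - 5 * δ ≤ gromovProd S (x.1 i) (z.1 j) ∧ (k : ℝ) - 2 * δ ≤ gromovProd S h (z.1 j) := by
    intro x z hx hz
    obtain ⟨N, hN⟩ := near_rep H hn (x := GromovSeq.smul S h⁻¹ x) (y := GromovSeq.smul S h⁻¹ z)
      (by rw [← hx]; rfl) (by rw [← hz]; rfl)
    obtain ⟨M, hM⟩ := htow x hx
    refine ⟨max N M, fun i hi j hj => ?_⟩
    have h1 : r - 2 * δ ≤ gromovProd S (h⁻¹ * x.1 i) (h⁻¹ * z.1 j) :=
      hN i (le_of_max_le_left hi) j (le_of_max_le_left hj)
    have h2 := hM i (le_of_max_le_right hi)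
    rw [hlen] at h2
    have h3 := gromovProd_translate S h (x.1 i) (z.1 j)
    rw [hlen] at h3
    have h4 := H.2 h (x.1 i) (z.1 j)
    have h5 : (k : ℝ) - 2 * δ ≤ gromovProd S h (z.1 j) := by
      rcases le_total (gromovProd S h (x.1 i)) (gromovProd S (x.1 i) (z.1 j)) with hle | hle
      · rw [min_eq_left hle] at h4
        linarith
      · rw [min_eq_right hle] at h4
        exfalso
        linarith
    exact ⟨by linarith, h5⟩
  constructor
  · obtain ⟨x, hx⟩ := exists_rep ξ
    obtain ⟨z, hz⟩ := exists_rep ζ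
    obtain ⟨N, hN⟩ := key x z hx hz
    exact near_of_rep hx hz ⟨N, fun i hi j hj => (hN i hi j hj).1⟩
  · intro z hz
    obtain ⟨x, hx⟩ := exists_rep ξ
    obtain ⟨N, hN⟩ := key x z hx hz
    refine ⟨N, fun j hj => ?_⟩
    rw [hlen]
    exact (hN j hj j hj).2

theorem shadow {δ : ℝ} (H : HypIneq S δ) {k : ℕ} (hk : 11 * δ + 2 ≤ k)
    [CompactSpace (Boundary S)] (q : ℕ → Boundary S) (h γ : ℕ → Γ)
    (hlen : ∀ n, wordLength S (h n) = k) (htow : ∀ n, Toward (h n) δ (q n)) (hγ0 : γ 0 = 1)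
    (hγ : ∀ n, γ (n + 1) = (h n)⁻¹ * γ n)
    (hq : ∀ n, Near S (8 * δ + 1) ((h n)⁻¹ • q n) (q (n + 1))) :
    Function.Injective γ ∧ ∃ l : Boundary S, ∀ y : Boundary S,
      (∃ᶠ n in atTop, Near S (8 * δ + 1) (q n) (γ n • y)) → y = l := by
  have hδ := H.1
  -- one step
  have stepA : ∀ (n : ℕ) (y : Boundary S), Near S (8 * δ + 1) (q (n + 1)) (γ (n + 1) • y) →
      Near S (k + 1) (q n) (γ n • y) ∧ Toward (h n) (2 * δ) (γ n • y) := by
    intro n y hy
    have h1 := near_trans H (hq n) hy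
    rw [hγ n, mul_smul] at h1
    have h2 := step H (hlen n) (htow n) (by linarith) h1
    refine ⟨near_mono (by linarith) h2.1, h2.2⟩
  have stepB' : ∀ (n : ℕ) (y : Boundary S), Near S (8 * δ + 1) (q (n + 1)) (γ (n + 1) • y) →
      Near S (8 * δ + 1) (q n) (γ n • y) := by
    intro n y hy
    exact near_mono (by linarith) (stepA n y hy).1
  have stepB : ∀ (n m : ℕ) (y : Boundary S), Near S (8 * δ + 1) (q (n + m)) (γ (n + m) • y) →
      Near S (8 * δ + 1) (q n) (γ n • y) := by
    intro n m y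
    induction m with
    | zero => exact id
    | succ m ih => exact fun hy => ih (stepB' (n + m) y hy)
  -- the shadowing point
  obtain ⟨l, -, hl⟩ := isCompact_univ.exists_mapClusterPt (f := (atTop : Filter ℕ))
    (u := fun n => (γ n)⁻¹ • q n) (by simp)
  have hlV : ∀ n, Near S (8 * δ + 1) (q n) (γ n • l) := by
    intro n
    have h1 := mapClusterPt_iff_frequently.1 hl _
      (near_mem_nhds H (11 * δ + 1 + wordLength S (γ n)) l)
    obtain ⟨m, hm, hm'⟩ := (frequently_atTop.1 h1) (n + 1)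
    have h2 := near_smul (γ n) hm'
    have h3 : Near S (8 * δ + 1) (q m) (γ m • ((γ m)⁻¹ • q m)) := by
      rw [smul_inv_smul]
      exact near_self _ _
    obtain ⟨d, rfl⟩ : ∃ d, m = n + 1 + d := ⟨m - (n + 1), by omega⟩
    have h4 := (stepA n _ (stepB (n + 1) d _ h3)).1
    have h5 : Near S (11 * δ + 1) (q n) (γ n • ((γ (n + 1 + d))⁻¹ • q (n + 1 + d))) :=
      near_mono (by linarith) h4
    have h6 := near_trans H h5 (near_symm (near_mono (r := 11 * δ + 1) (by linarith) h2))
    exact near_mono (by linarith) h6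
  have hlT : ∀ n, Toward (h n) (2 * δ) (γ n • l) := fun n => (stepA n l (hlV (n + 1))).2
  obtain ⟨z, hz⟩ := exists_rep l
  have hzn : ∀ n, mk (GromovSeq.smul S (γ n) z) = γ n • l := fun n => by rw [← hz]; rfl
  constructor
  · -- injectivity
    have hdec : ∀ n, ∃ N : ℕ, ∀ i ≥ N,
        wordLength S (γ (n + 1) * z.1 i) < wordLength S (γ n * z.1 i) := by
      intro n
      obtain ⟨N, hN⟩ := hlT n _ (hzn n)
      refine ⟨N, fun i hi => ?_⟩
      have h1 : (wordLength S (h n) : ℝ) - 2 * δ ≤ gromovProd S (h n) (γ n * z.1 i) := hN i hi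
      have h2 := wordLength_inv_mul S (h n) (γ n * z.1 i)
      rw [← mul_assoc, ← hγ n] at h2
      rw [hlen n] at h1 h2
      have h3 : (wordLength S (γ (n + 1) * z.1 i) : ℝ) < wordLength S (γ n * z.1 i) := by
        linarith
      exact_mod_cast h3
    have hdec' : ∀ n m, ∃ N : ℕ, ∀ i ≥ N,
        wordLength S (γ (n + m + 1) * z.1 i) < wordLength S (γ n * z.1 i) := by
      intro n m
      induction m with
      | zero => exact hdec n
      | succ m ih =>
        obtain ⟨N, hN⟩ := ih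
        obtain ⟨M, hM⟩ := hdec (n + (m + 1))
        refine ⟨max N M, fun i hi => ?_⟩
        exact (hM i (le_of_max_le_right hi)).trans (hN i (le_of_max_le_left hi))
    have hne : ∀ n m, n < m → γ n ≠ γ m := by
      intro n m hnm heq
      obtain ⟨d, rfl⟩ : ∃ d, m = n + d + 1 := ⟨m - n - 1, by omega⟩
      obtain ⟨N, hN⟩ := hdec' n d
      have := hN N le_rfl
      rw [heq] at this
      exact lt_irrefl _ this
    intro n m hnm
    rcases lt_trichotomy n m with hlt | heq | hlt
    · exact absurd hnm (hne n m hlt)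
    · exact heq
    · exact absurd hnm.symm (hne m n hlt)
  · refine ⟨l, fun y hy => ?_⟩
    have contr : ∀ m, Near S (8 * δ + 1) (q m) (γ m • y) → Near S (m : ℝ) y l := by
      intro m hm
      obtain ⟨x, hx⟩ := exists_rep y
      have hxn : ∀ n, mk (GromovSeq.smul S (γ n) x) = γ n • y := fun n => by rw [← hx]; rfl
      have hyT : ∀ n, n < m → Toward (h n) (2 * δ) (γ n • y) := by
        intro n hn
        obtain ⟨d, rfl⟩ : ∃ d, m = n + 1 + d := ⟨m - (n + 1), by omega⟩
        exact (stepA n y (stepB (n + 1) d y hm)).2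
      have hind : ∀ n, n ≤ m → ∃ N : ℕ, ∀ i ≥ N, ∀ j ≥ N,
          gromovProd S (γ n * x.1 i) (γ n * z.1 j) + n ≤ gromovProd S (x.1 i) (z.1 j) := by
        intro n
        induction n with
        | zero =>
          intro _
          refine ⟨0, fun i _ j _ => ?_⟩
          rw [hγ0, one_mul, one_mul]
          simp
        | succ n ih =>
          intro hn
          obtain ⟨N, hN⟩ := ih (by omega)
          obtain ⟨N1, hN1⟩ := hyT n (by omega) _ (hxn n)
          obtain ⟨N2, hN2⟩ := hlT n _ (hzn n)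
          refine ⟨max N (max N1 N2), fun i hi j hj => ?_⟩
          have a1 := hN i (le_of_max_le_left hi) j (le_of_max_le_left hj)
          have a2 : (wordLength S (h n) : ℝ) - 2 * δ ≤ gromovProd S (h n) (γ n * x.1 i) :=
            hN1 i (le_of_max_le_left (le_of_max_le_right hi))
          have a3 : (wordLength S (h n) : ℝ) - 2 * δ ≤ gromovProd S (h n) (γ n * z.1 j) :=
            hN2 j (le_of_max_le_right (le_of_max_le_right hj))
          have a4 := gromovProd_translate S (h n) (γ n * x.1 i) (γ n * z.1 j)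
          rw [← mul_assoc, ← mul_assoc, ← hγ n] at a4
          rw [hlen n] at a2 a3 a4
          push_cast
          linarith
      obtain ⟨N, hN⟩ := hind m le_rfl
      refine near_of_rep hx hz ⟨N, fun i hi j hj => ?_⟩
      have b1 := hN i hi j hj
      have b2 := gromovProd_nonneg S (γ m * x.1 i) (γ m * z.1 j)
      linarith
    refine eq_of_near H fun r => ?_
    obtain ⟨n, hn⟩ := exists_nat_ge r
    obtain ⟨m, hm, hm'⟩ := (frequently_atTop.1 hy) n
    refine near_mono ?_ (contr m hm')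
    have : (n : ℝ) ≤ m := by exact_mod_cast hm
    linarith

end Pool.Agent.Work.MP_462f25_al
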